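import Pool.Agent.H41.CO.Defs

set_option autoImplicit false

/-!
# Cycle odd-covers: assembly of the main bound
-/

namespace Pool.Agent.H105.CO

open Pool.Agent.H41.CO Equiv

theorem num_up (k p t o x : ℕ) (hp : 1 ≤ p) (ho : o ≤ k)
    (hx : |(x : ℝ) - (o : ℝ) / p| ≤ t) : x + (k - o) / p ≤ k / p + t := by
  have hp' : (0 : ℝ) < p := by exact_mod_cast hp
  have h1 : (x : ℝ) ≤ (o : ℝ) / p + t := by
    have := (abs_le.1 hx).2
    linarith
  have h2 : (((k - o) / p : ℕ) : ℝ) ≤ ((k - o : ℕ) : ℝ) / p := Nat.cast_div_le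
  have h3 : ((k - o : ℕ) : ℝ) = (k : ℝ) - o := by push_cast [ho]; ring
  rw [h3] at h2
  by_cases h : x + (k - o) / p ≤ t
  · exact le_trans h (Nat.le_add_left _ _)
  · obtain ⟨a, ha⟩ : ∃ a, x + (k - o) / p = t + a := ⟨x + (k - o) / p - t, by omega⟩
    have h4 : (a : ℝ) ≤ (k : ℝ) / p := by
      have h5 : (x : ℝ) + (((k - o) / p : ℕ) : ℝ) = t + a := by exact_mod_cast ha
      have h6 : (o : ℝ) / p + ((k : ℝ) - o) / p = (k : ℝ) / p := by ring
      linarith
    have h7 : a ≤ k / p := by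
      rw [Nat.le_div_iff_mul_le hp]
      rw [le_div_iff₀ hp'] at h4
      exact_mod_cast h4
    omega

theorem num_lo (k p t o x : ℕ) (hp : 1 ≤ p) (ho : o ≤ k)
    (hx : |(x : ℝ) - (o : ℝ) / p| ≤ t) : k / p + t + 1 ≤ x + (k - o) / p + (2 * t + 2) := by
  have hp' : (0 : ℝ) < p := by exact_mod_cast hp
  have h1 : (o : ℝ) / p - t ≤ x := by
    have := (abs_le.1 hx).1
    linarith
  have h2 : ((k - o : ℕ) : ℝ) / p < (((k - o) / p : ℕ) : ℝ) + 1 := by
    rw [div_lt_iff₀ hp']
    have h4 : k - o < ((k - o) / p + 1) * p := by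
      have := Nat.lt_div_mul_add (a := k - o) hp
      rw [add_mul, one_mul]
      exact this
    exact_mod_cast h4
  have h3 : ((k - o : ℕ) : ℝ) = (k : ℝ) - o := by push_cast [ho]; ring
  rw [h3] at h2
  have h5 : ((k / p : ℕ) : ℝ) ≤ (k : ℝ) / p := Nat.cast_div_le
  have h6 : (o : ℝ) / p + ((k : ℝ) - o) / p = (k : ℝ) / p := by ring
  have h7 : (((k / p + t + 1 : ℕ)) : ℝ) ≤ ((x + (k - o) / p + (2 * t + 2) : ℕ) : ℝ) := by
    push_cast
    linarith
  exact_mod_cast h7

theorem ncard_prod_le {α β : Type} [Fintype α] [Fintype β] (Q : α × β → Prop) (M : ℕ)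
    (h : ∀ a, {b | Q (a, b)}.ncard ≤ M) : {i : α × β | Q i}.ncard ≤ Fintype.card α * M := by
  classical
  have h1 : {i : α × β | Q i}.ncard = ∑ a, {b | Q (a, b)}.ncard := by
    simp only [Set.ncard_eq_toFinset_card', Set.toFinset_ofPred, Finset.card_filter]
    rw [Fintype.sum_prod_type]
  rw [h1]
  calc ∑ a, {b | Q (a, b)}.ncard ≤ ∑ _a : α, M := Finset.sum_le_sum fun a _ => h a
    _ = Fintype.card α * M := by simp

section
variable {V : Type} [Fintype V] [DecidableEq V]

theorem out_eq (A : Finset (V × V)) (v : V) :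
    out A v = (Finset.univ.filter fun w => (v, w) ∈ A).card := by
  unfold out
  refine Finset.card_nbij' (fun a => a.2) (fun w => (v, w)) ?_ ?_ ?_ ?_
  · rintro ⟨a, b⟩ h
    simp only [Finset.coe_filter, Set.mem_ofPred_eq] at h ⊢
    simp only [Finset.mem_univ, true_and]
    rw [← h.2]; exact h.1
  · intro w h
    simp only [Finset.coe_filter, Set.mem_ofPred_eq, Finset.mem_univ, true_and] at h ⊢
    simpa using h
  · rintro ⟨a, b⟩ h
    simp only [Finset.coe_filter, Set.mem_ofPred_eq] at h ⊢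
    rw [← h.2]
  · intro w h
    rfl

theorem inn_eq (A : Finset (V × V)) (v : V) :
    inn A v = (Finset.univ.filter fun w => (w, v) ∈ A).card := by
  unfold inn
  refine Finset.card_nbij' (fun a => a.1) (fun w => (w, v)) ?_ ?_ ?_ ?_
  · rintro ⟨a, b⟩ h
    simp only [Finset.coe_filter, Set.mem_ofPred_eq] at h ⊢
    simp only [Finset.mem_univ, true_and]
    rw [← h.2]; exact h.1
  · intro w h
    simp only [Finset.coe_filter, Set.mem_ofPred_eq, Finset.mem_univ, true_and] at h ⊢
    simpa using h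
  · rintro ⟨a, b⟩ h
    simp only [Finset.coe_filter, Set.mem_ofPred_eq] at h ⊢
    rw [← h.2]
  · intro w h
    rfl

theorem deg_eq (G : SimpleGraph V) (A : Finset (V × V)) (hA : Ori G A) (v : V) :
    {w | G.Adj v w}.ncard = out A v + inn A v := by
  classical
  rw [out_eq, inn_eq, ← Finset.card_union_of_disjoint]
  · rw [Set.ncard_eq_toFinset_card']
    congr 1
    ext w
    simp [hA.1 v w]
  · rw [Finset.disjoint_left]
    intro w h1 h2
    simp only [Finset.mem_filter, Finset.mem_univ, true_and] at h1 h2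
    exact hA.2 _ _ h1 h2

omit [Fintype V] in
theorem cov_add {I : Type} [Fintype I] (σ : I → Perm V) (hσ : ∀ i, OneCyc (σ i))
    (G X : SimpleGraph V) (b : ℕ) (hX : Cov b X)
    (h : ∀ u v, u ≠ v → adj G u v = ∑ i, vec (σ i) u v + adj X u v) :
    Cov (Fintype.card I + b) G := by
  classical
  obtain ⟨π, hπ, hπ'⟩ := hX
  refine ⟨Fin.append (fun j => σ ((Fintype.equivFin I).symm j)) π, ?_, ?_⟩
  · intro i
    refine Fin.addCases (fun j => ?_) (fun j => ?_) i
    · rw [Fin.append_left]; exact hσ _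
    · rw [Fin.append_right]; exact hπ _
  · intro u v huv
    rw [Fin.sum_univ_add]
    simp only [Fin.append_left, Fin.append_right]
    rw [h u v huv, hπ' u v huv, Equiv.sum_comp (Fintype.equivFin I).symm
      (fun i => vec (σ i) u v)]

/-- the neighbourhoods used in the splitting lemma -/
def nbr (A : Finset (V × V)) (j : V × Bool) : Finset V :=
  if j.2 then Finset.univ.filter fun w => (j.1, w) ∈ A else Finset.univ.filter fun w => (w, j.1) ∈ A

theorem card_nbr (A : Finset (V × V)) (k : ℕ) (h1 : ∀ v, out A v ≤ k) (h2 : ∀ v, inn A v ≤ k)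
    (j : V × Bool) : (nbr A j).card ≤ k := by
  obtain ⟨v, b⟩ := j
  cases b
  · simpa [nbr, inn_eq] using h2 v
  · simpa [nbr, out_eq] using h1 v

theorem ncard_nbr (A : Finset (V × V)) (k : ℕ) (h1 : ∀ v, out A v ≤ k) (h2 : ∀ v, inn A v ≤ k)
    (v : V) : {j | v ∈ nbr A j}.ncard ≤ 2 * k := by
  classical
  have h3 : {j : V × Bool | v ∈ nbr A j} ⊆
      (fun w => (w, true)) '' {w | (w, v) ∈ A} ∪ (fun w => (w, false)) '' {w | (v, w) ∈ A} := by
    rintro ⟨w, b⟩ h
    cases b
    · right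
      refine ⟨w, ?_, rfl⟩
      simpa [nbr] using h
    · left
      refine ⟨w, ?_, rfl⟩
      simpa [nbr] using h
  have h4 : {w | (w, v) ∈ A}.ncard = inn A v := by
    rw [inn_eq, Set.ncard_eq_toFinset_card', Set.toFinset_ofPred]
  have h5 : {w | (v, w) ∈ A}.ncard = out A v := by
    rw [out_eq, Set.ncard_eq_toFinset_card', Set.toFinset_ofPred]
  calc {j | v ∈ nbr A j}.ncard ≤ _ := Set.ncard_le_ncard h3 (Set.toFinite _)
    _ ≤ _ := Set.ncard_union_le _ _
    _ ≤ {w | (w, v) ∈ A}.ncard + {w | (v, w) ∈ A}.ncard :=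
        add_le_add (Set.ncard_image_le (Set.toFinite _)) (Set.ncard_image_le (Set.toFinite _))
    _ ≤ 2 * k := by rw [h4, h5]; have := h1 v; have := h2 v; omega

end

/-- the main bound from the steps -/
theorem bound (he : S_EULER) (hp : S_PERMS) (hm : S_MERGE) (hh : S_HALF) (hr : S_REPS)
    (hs : S_SPLIT) (hx : S_XDEG) (hpu : S_PURE) : S_BOUND := by
  intro V _ _ G k p q t hG hdeg hk hpp hq hqp hexp
  classical
  have hF : Fact p.Prime := ⟨hpp⟩
  have hp1 : 1 ≤ p := hpp.one_lt.le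
  obtain ⟨A, hA, hAe⟩ := he V G hG
  have hout : ∀ v, out A v ≤ k := by
    intro v
    have h1 := hdeg v
    rw [deg_eq G A hA v, ← hAe v] at h1
    omega
  have hinn : ∀ v, inn A v ≤ k := by
    intro v
    rw [← hAe v]
    exact hout v
  obtain ⟨f, hf⟩ := hs V (V × Bool) (nbr A) k p t hp1 hk (card_nbr A k hout hinn)
    (ncard_nbr A k hout hinn) hexp
  -- the colour classes
  let Ac : ZMod p → Finset (V × V) := fun c => A.filter fun a => f a.2 = f a.1 + c
  have hAcA : ∀ c, Ac c ⊆ A := fun c => Finset.filter_subset _ _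
  have hmemAc : ∀ c a, a ∈ Ac c ↔ a ∈ A ∧ f a.2 = f a.1 + c := by
    intro c a
    exact Finset.mem_filter
  have hoc : ∀ c v, |(out (Ac c) v : ℝ) - (out A v : ℝ) / p| ≤ t := by
    intro c v
    have h1 := hf (v, true) (f v + c)
    have h2 : (nbr A (v, true)).card = out A v := by simp [nbr, out_eq]
    have h3 : ((nbr A (v, true)).filter fun w => f w = f v + c).card = out (Ac c) v := by
      rw [out_eq]
      congr 1
      ext w
      simp [nbr, hmemAc]
    rw [h2, h3] at h1
    exact h1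
  have hic : ∀ c v, |(inn (Ac c) v : ℝ) - (out A v : ℝ) / p| ≤ t := by
    intro c v
    have h1 := hf (v, false) (f v - c)
    have h2 : (nbr A (v, false)).card = out A v := by rw [hAe]; simp [nbr, inn_eq]
    have h3 : ((nbr A (v, false)).filter fun w => f w = f v - c).card = inn (Ac c) v := by
      rw [inn_eq]
      congr 1
      ext w
      simp only [nbr, hmemAc, Finset.mem_filter, Finset.mem_univ, true_and, Bool.false_eq_true,
        if_false]
      constructor
      · rintro ⟨h4, h5⟩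
        exact ⟨h4, by rw [h5]; ring⟩
      · rintro ⟨h4, h5⟩
        exact ⟨h4, by rw [h5]; ring⟩
    rw [h2, h3] at h1
    exact h1
  set D := k / p + t + 1 with hD
  let l : V → ℕ := fun v => (k - out A v) / p
  have hup : ∀ c v, out (Ac c) v + l v ≤ D := fun c v =>
    le_trans (num_up k p t _ _ hp1 (hout v) (hoc c v)) (Nat.le_succ _)
  have hup' : ∀ c v, inn (Ac c) v + l v ≤ D := fun c v =>
    le_trans (num_up k p t _ _ hp1 (hout v) (hic c v)) (Nat.le_succ _)
  have hlo : ∀ c v, D ≤ out (Ac c) v + l v + (2 * t + 2) := fun c v =>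
    num_lo k p t _ _ hp1 (hout v) (hoc c v)
  have hlo' : ∀ c v, D ≤ inn (Ac c) v + l v + (2 * t + 2) := fun c v =>
    num_lo k p t _ _ hp1 (hout v) (hic c v)
  have hperm := fun c : ZMod p => hp V D (Ac c) l (Nat.le_add_left 1 _)
    (fun v hv => hA.2 v v (hAcA c hv) (hAcA c hv)) (hup c) (hup' c)
  choose τ col hτ1 hτ2 hτ3 using hperm
  let I : Type := {c : ZMod p // c ≠ 0} × Fin D
  let T : I → Perm V := fun i => τ i.1.1 i.2
  let P : I → V → Prop := fun i x => (x, T i x) ∈ Ac i.1.1 ∧ col i.1.1 (x, T i x) = i.2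
  have hI : Fintype.card I = (p - 1) * D := by
    have h1 : Fintype.card {c : ZMod p // c ≠ 0} = p - 1 := by
      rw [Fintype.card_subtype_compl, ZMod.card]
      simp
    rw [Fintype.card_prod, h1, Fintype.card_fin]
  have hI1 : Fintype.card {c : ZMod p // c ≠ 0} = p - 1 := by
    rw [Fintype.card_subtype_compl, ZMod.card]
    simp
  obtain ⟨R, hR1, hR2, hR3, hR4⟩ := hr V I T P q hq (by
    intro i x _ hP m n hm' hn'
    refine hpu V p f i.1.1 (T i) x hpp i.1.2 (fun y hy => ?_) m n (lt_of_lt_of_le hm' hqp)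
      (lt_of_lt_of_le hn' hqp)
    exact ((hmemAc _ _).1 (hP y hy).1).2)
  have hmg := fun i : I => hm V (T i) (R i) (hR1 i)
  choose σ hσ1 hσ2 using hmg
  obtain ⟨X, hX1, hX2, hX3⟩ := hx V I G A (Ac 0) σ T P R hG hA (hAcA 0) (by
      intro i x hP
      refine ⟨hAcA _ hP.1, fun h0 => ?_⟩
      have h1 := ((hmemAc _ _).1 hP.1).2
      have h2 := ((hmemAc _ _).1 h0).2
      rw [h2] at h1
      have h3 := add_left_cancel h1
      exact i.1.2 h3.symm) (by
      intro a ha ha0
      have hc0 : f a.2 - f a.1 ≠ 0 := by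
        intro h0
        apply ha0
        rw [hmemAc]
        refine ⟨ha, ?_⟩
        rw [add_zero]
        exact sub_eq_zero.1 h0
      have hac : a ∈ Ac (f a.2 - f a.1) := by
        rw [hmemAc]
        exact ⟨ha, by ring⟩
      have htau := hτ1 (f a.2 - f a.1) a hac
      refine ⟨(⟨f a.2 - f a.1, hc0⟩, col (f a.2 - f a.1) a), ⟨⟨?_, ?_⟩, htau⟩, ?_⟩
      · change (a.1, τ (f a.2 - f a.1) (col (f a.2 - f a.1) a) a.1) ∈ Ac (f a.2 - f a.1)
        rw [htau]
        exact hac
      · change col (f a.2 - f a.1) (a.1, τ (f a.2 - f a.1) (col (f a.2 - f a.1) a) a.1) = _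
        rw [htau]
      · rintro ⟨⟨c, hc⟩, j⟩ ⟨⟨h1, h2⟩, h3⟩
        change τ c j a.1 = a.2 at h3
        change (a.1, τ c j a.1) ∈ Ac c at h1
        change col c (a.1, τ c j a.1) = j at h2
        rw [h3] at h1 h2
        have h4 : c = f a.2 - f a.1 := by
          have := ((hmemAc _ _).1 h1).2
          change f a.2 = f a.1 + c at this
          rw [this]; ring
        subst h4
        have h5 : col (f a.2 - f a.1) a = j := h2
        rw [← h5]) hσ2 hR2
  -- the counts
  have hcnt1 : ∀ v, {i | v ∈ R i}.ncard ≤ (p - 1) * (2 * t + 2) + ((p - 1) * D / q + 1) := by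
    intro v
    refine le_trans (hR3 v) ?_
    rw [hI]
    refine Nat.add_le_add_right ?_ _
    refine le_trans (ncard_prod_le (fun i : I => T i v ≠ v ∧ ¬ P i v) (2 * t + 2) ?_) (by rw [hI1])
    intro c
    have h1 := hτ2 c.1 v
    have h2 := hlo c.1 v
    have h3 : {b | T (c, b) v ≠ v ∧ ¬ P (c, b) v} = {i | τ c.1 i v ≠ v ∧
        ¬ ((v, τ c.1 i v) ∈ Ac c.1 ∧ col c.1 (v, τ c.1 i v) = i)} := rfl
    rw [h3]
    omega
  have hcnt2 : ∀ v, {i | (T i).symm v ∈ R i}.ncard ≤
      (p - 1) * (2 * t + 2) + ((p - 1) * D / q + 1) := by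
    intro v
    refine le_trans (hR4 v) ?_
    rw [hI]
    refine Nat.add_le_add_right ?_ _
    refine le_trans (ncard_prod_le (fun i : I => (T i).symm v ≠ v ∧ ¬ P i ((T i).symm v))
      (2 * t + 2) ?_) (by rw [hI1])
    intro c
    have h1 := hτ3 c.1 v
    have h2 := hlo' c.1 v
    have h3 : {b | (T (c, b)).symm v ≠ v ∧ ¬ P (c, b) ((T (c, b)).symm v)} =
        {i | (τ c.1 i).symm v ≠ v ∧
        ¬ (((τ c.1 i).symm v, v) ∈ Ac c.1 ∧ col c.1 ((τ c.1 i).symm v, v) = i)} := by
      ext b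
      have h4 : T (c, b) ((T (c, b)).symm v) = v := Equiv.apply_symm_apply _ _
      simp only [Set.mem_ofPred_eq, P, h4]
      rfl
    rw [h3]
    omega
  have hXdeg : ∀ v, {w | X.Adj v w}.ncard ≤
      2 * (D + 2 * ((p - 1) * (2 * t + 2) + ((p - 1) * D / q + 1))) := by
    intro v
    have h1 := hX3 v
    have h2 := hcnt1 v
    have h3 := hcnt2 v
    have h4 := hup 0 v
    have h5 := hup' 0 v
    omega
  have hcovX := hh V X _ hX1 hXdeg
  have hfin := cov_add σ hσ1 G X _ hcovX hX2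
  rw [hI] at hfin
  exact hfin

end Pool.Agent.H105.CO
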